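import Mathlib
import Pool.Agent.R828.ProdBal

/-!
# Products of so-bounded balleans are so-bounded (MP_bddfa7_gt)
-/

namespace Pool.Agent.Results.MP_bddfa7_gt.ProductSoBounded

open Set

universe u v

/-- A (connected) ballean: a set with a coarse structure. -/
structure Ballean (X : Type u) where
  /-- the coarse structure -/
  ent : Set (Set (X × X))
  /-- the diagonal is an entourage -/
  diag : {p | p.1 = p.2} ∈ ent
  /-- closed under subsets -/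
  sub : ∀ E ∈ ent, ∀ F, F ⊆ E → F ∈ ent
  /-- closed under finite unions -/
  union : ∀ E ∈ ent, ∀ F ∈ ent, E ∪ F ∈ ent
  /-- closed under inverses -/
  inv : ∀ E ∈ ent, {p | (p.2, p.1) ∈ E} ∈ ent
  /-- closed under compositions -/
  comp : ∀ E ∈ ent, ∀ F ∈ ent, {p | ∃ y, (p.1, y) ∈ E ∧ (y, p.2) ∈ F} ∈ ent
  /-- connected -/
  conn : ∀ x y, ∃ E ∈ ent, (x, y) ∈ E

/-- `E[x]`. -/
def ball {X : Type u} (E : Set (X × X)) (x : X) : Set X := {y | (x, y) ∈ E}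

namespace Ballean

variable {X : Type u} {Y : Type v}

/-- Bounded sets. -/
def Bounded (A : Ballean X) (S : Set X) : Prop := ∃ E ∈ A.ent, ∃ x, S ⊆ ball E x

/-- Slowly oscillating functions. -/
def SlowlyOsc (A : Ballean X) (f : X → ℝ) : Prop :=
  ∀ E ∈ A.ent, ∀ ε : ℝ, 0 < ε → ∃ B, A.Bounded B ∧
    ∀ x, x ∉ B → Metric.ediam (f '' ball E x) < ENNReal.ofReal ε

/-- so-bounded balleans. -/
def SoBounded (A : Ballean X) : Prop :=
  ∀ f : X → ℝ, A.SlowlyOsc f → ∃ B, A.Bounded B ∧ ∃ M : ℝ, ∀ x, x ∉ B → |f x| ≤ M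

/-- The product coarse structure: all subsets of the sets
`{((x,y),(x',y')) : (x,x') ∈ E, (y,y') ∈ F}`. -/
def prod (A : Ballean X) (B : Ballean Y) : Ballean (X × Y) where
  ent := {G | ∃ E ∈ A.ent, ∃ F ∈ B.ent, G ⊆ {p | (p.1.1, p.2.1) ∈ E ∧ (p.1.2, p.2.2) ∈ F}}
  diag := ⟨_, A.diag, _, B.diag, by
    rintro p (hp : p.1 = p.2)
    exact ⟨congrArg Prod.fst hp, congrArg Prod.snd hp⟩⟩
  sub := by
    rintro G ⟨E, hE, F, hF, h⟩ G' hG'
    exact ⟨E, hE, F, hF, hG'.trans h⟩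
  union := by
    rintro G ⟨E, hE, F, hF, h⟩ G' ⟨E', hE', F', hF', h'⟩
    refine ⟨_, A.union E hE E' hE', _, B.union F hF F' hF', ?_⟩
    rintro p (hp | hp)
    · exact ⟨Or.inl (h hp).1, Or.inl (h hp).2⟩
    · exact ⟨Or.inr (h' hp).1, Or.inr (h' hp).2⟩
  inv := by
    rintro G ⟨E, hE, F, hF, h⟩
    refine ⟨_, A.inv E hE, _, B.inv F hF, ?_⟩
    intro p hp
    exact ⟨(h hp).1, (h hp).2⟩
  comp := by
    rintro G ⟨E, hE, F, hF, h⟩ G' ⟨E', hE', F', hF', h'⟩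
    refine ⟨_, A.comp E hE E' hE', _, B.comp F hF F' hF', ?_⟩
    rintro p ⟨q, hq1, hq2⟩
    exact ⟨⟨q.1, (h hq1).1, (h' hq2).1⟩, ⟨q.2, (h hq1).2, (h' hq2).2⟩⟩
  conn := by
    rintro ⟨x, y⟩ ⟨x', y'⟩
    obtain ⟨E, hE, h⟩ := A.conn x x'
    obtain ⟨F, hF, h'⟩ := B.conn y y'
    exact ⟨_, ⟨E, hE, F, hF, subset_rfl⟩, h, h'⟩

/-- `A.prod B` is the coarse structure generated by the product entourages: it contains them and
is contained in every coarse structure that contains them. -/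
theorem prod_generated (A : Ballean X) (B : Ballean Y) :
    (∀ E ∈ A.ent, ∀ F ∈ B.ent,
      {p : (X × Y) × (X × Y) | (p.1.1, p.2.1) ∈ E ∧ (p.1.2, p.2.2) ∈ F} ∈ (A.prod B).ent) ∧
    ∀ P : Ballean (X × Y), (∀ E ∈ A.ent, ∀ F ∈ B.ent,
      {p : (X × Y) × (X × Y) | (p.1.1, p.2.1) ∈ E ∧ (p.1.2, p.2.2) ∈ F} ∈ P.ent) →
      (A.prod B).ent ⊆ P.ent := by
  refine ⟨fun E hE F hF => ⟨E, hE, F, hF, subset_rfl⟩, fun P hP => ?_⟩
  rintro G ⟨E, hE, F, hF, h⟩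
  exact P.sub _ (hP E hE F hF) _ h

/-- The base of reflexive entourages. -/
def toBal (A : Ballean X) : R828.Bal X where
  ent := {E | E ∈ A.ent ∧ ∀ x, (x, x) ∈ E}
  diag := fun E hE => hE.2
  comp := by
    rintro E ⟨hE, hE'⟩ F ⟨hF, hF'⟩
    refine ⟨_, ⟨A.comp E hE _ (A.inv F hF), fun x => ⟨x, hE' x, hF' x⟩⟩, ?_⟩
    intro x y z hxy hzy
    exact ⟨y, hxy, hzy⟩
  conn := by
    intro x y
    obtain ⟨E, hE, h⟩ := A.conn x y
    exact ⟨E ∪ {p | p.1 = p.2}, ⟨A.union _ hE _ A.diag, fun x => Or.inr rfl⟩, Or.inl h⟩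

theorem bd_iff (A : Ballean X) (S : Set X) : A.toBal.Bd S ↔ A.Bounded S := by
  constructor
  · rintro ⟨E, hE, x, hx⟩
    exact ⟨E, hE.1, x, fun y hy => hx y hy⟩
  · rintro ⟨E, hE, x, hx⟩
    exact ⟨E ∪ {p | p.1 = p.2}, ⟨A.union _ hE _ A.diag, fun x => Or.inr rfl⟩, x,
      fun y hy => Or.inl (hx hy)⟩

theorem abs_of_ediam {S : Set ℝ} {c : ℝ} (hc : 0 ≤ c) (h : Metric.ediam S ≤ ENNReal.ofReal c)
    {a b : ℝ} (ha : a ∈ S) (hb : b ∈ S) : |a - b| ≤ c := by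
  have h1 := (Metric.edist_le_ediam_of_mem ha hb).trans h
  rw [edist_dist, ENNReal.ofReal_le_ofReal_iff hc, Real.dist_eq] at h1
  exact h1

theorem slowlyOsc_of (A : Ballean X) {g : X → ℝ}
    (h : ∀ E ∈ A.toBal.ent, ∀ ε : ℝ, 0 < ε → R828.Osc A.toBal E g ε) : A.SlowlyOsc g := by
  intro E hE ε hε
  obtain ⟨S, hS, h1⟩ := h (E ∪ {p | p.1 = p.2}) ⟨A.union _ hE _ A.diag, fun x => Or.inr rfl⟩
    (ε / 4) (by positivity)
  refine ⟨S, (A.bd_iff S).1 hS, fun x hx => ?_⟩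
  have h2 : Metric.ediam (g '' ball E x) ≤ ENNReal.ofReal (ε / 2) := by
    rw [Metric.ediam_le_iff]
    rintro _ ⟨y, hy, rfl⟩ _ ⟨z, hz, rfl⟩
    rw [edist_dist]
    apply ENNReal.ofReal_le_ofReal
    rw [Real.dist_eq]
    have h3 := h1 x y hx (Or.inl hy)
    have h4 := h1 x z hx (Or.inl hz)
    rw [abs_le] at *
    constructor <;> linarith [h3.1, h3.2, h4.1, h4.2]
  refine lt_of_le_of_lt h2 ?_
  rw [ENNReal.ofReal_lt_ofReal_iff hε]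
  linarith

theorem oscP_of (A : Ballean X) (B : Ballean Y) {f : X × Y → ℝ} (hf : (A.prod B).SlowlyOsc f)
    {E : Set (X × X)} (hE : E ∈ A.toBal.ent) {F : Set (Y × Y)} (hF : F ∈ B.toBal.ent) {ε : ℝ}
    (hε : 0 < ε) : R828.OscP A.toBal B.toBal E F (fun x y => f (x, y)) ε := by
  obtain ⟨S, ⟨G, ⟨E', hE', F', hF', hG⟩, ⟨x₀, y₀⟩, hS⟩, h⟩ :=
    hf _ ⟨E, hE.1, F, hF.1, subset_rfl⟩ ε hε
  refine ⟨ball E' x₀, ball F' y₀, (A.bd_iff _).2 ⟨E', hE', x₀, subset_rfl⟩,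
    (B.bd_iff _).2 ⟨F', hF', y₀, subset_rfl⟩, ?_⟩
  intro x y x' y' hxy hx hy
  have h1 : (x, y) ∉ S := by
    intro h2
    have h3 := hG (hS h2)
    rcases hxy with h4 | h4
    · exact h4 h3.1
    · exact h4 h3.2
  exact abs_of_ediam hε.le (h (x, y) h1).le ⟨(x, y), ⟨hE.2 x, hF.2 y⟩, rfl⟩
    ⟨(x', y'), ⟨hx, hy⟩, rfl⟩

end Ballean

open Ballean

/-- **Main result**: the product of two so-bounded balleans is so-bounded. -/
theorem result {X : Type u} {Y : Type v} (A : Ballean X) (B : Ballean Y) (hA : A.SoBounded)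
    (hB : B.SoBounded) : (A.prod B).SoBounded := by
  intro f hf
  obtain ⟨_, ⟨_, _, ⟨x₀, y₀⟩, _⟩, _⟩ := hf _ (A.prod B).diag 1 one_pos
  have hX : Nonempty X := ⟨x₀⟩
  have hY : Nonempty Y := ⟨y₀⟩
  obtain ⟨S, T, hS, hT, M, hM⟩ := R828.prod_bdd (A := A.toBal) (B := B.toBal)
    (f := fun x y => f (x, y))
    (fun E hE F hF => ⟨1, zero_le_one, A.oscP_of B hf hE hF one_pos⟩) (by
      intro g hg
      obtain ⟨S, hS, M, hM⟩ := hA g (A.slowlyOsc_of (fun E hE ε hε => by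
        obtain ⟨F, hF⟩ := B.toBal.exists_ent
        exact hg E hE F hF ε hε.le (A.oscP_of B hf hE hF hε)))
      exact ⟨S, (A.bd_iff S).2 hS, M, hM⟩) (by
      intro g hg
      obtain ⟨S, hS, M, hM⟩ := hB g (B.slowlyOsc_of (fun F hF ε hε => by
        obtain ⟨E, hE⟩ := A.toBal.exists_ent
        exact hg F hF E hE ε hε.le (A.oscP_of B hf hE hF hε).flip))
      exact ⟨S, (B.bd_iff S).2 hS, M, hM⟩)
  obtain ⟨E, hE, x, hx⟩ := (A.bd_iff S).1 hS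
  obtain ⟨F, hF, y, hy⟩ := (B.bd_iff T).1 hT
  refine ⟨S ×ˢ T, ⟨_, ⟨E, hE, F, hF, subset_rfl⟩, (x, y), ?_⟩, M, ?_⟩
  · rintro ⟨a, b⟩ ⟨ha, hb⟩
    exact ⟨hx ha, hy hb⟩
  · rintro ⟨a, b⟩ hab
    apply hM a b
    by_contra hcon
    push Not at hcon
    exact hab ⟨hcon.1, hcon.2⟩

end Pool.Agent.Results.MP_bddfa7_gt.ProductSoBounded
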